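import Pool.Agent.helper20.SOL.SpecE

/-!
# Project sol, row LE87: more than 60480 sums of seven orthogonal roots of `E_8`
-/

set_option autoImplicit false

namespace Pool.Agent.SOL

open Pool.Agent.helper54.SOG Finset

open scoped BigOperators

/-- the absolute value of `t - 6` -/
def LE87_w (t : ℕ) : ℕ := (6 - t) + (t - 6)

/-- one element less of absolute value `w` -/
def LE87_dec (c : ℕ → ℕ) (w : ℕ) : ℕ → ℕ := fun v => if v = w then c v - 1 else c v

/-- the vectors with `c v` entries of absolute value `v` -/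
def LE87_fs : (n : ℕ) → (ℕ → ℕ) → Finset (Fin n → ℤ)
  | 0, c => if ∀ v ∈ range 7, c v = 0 then {Fin.elim0} else ∅
  | n + 1, c => (range 13).biUnion fun t => if 0 < c (LE87_w t) then
      (LE87_fs n (LE87_dec c (LE87_w t))).image
        (fun y => (Fin.cons ((t : ℤ) - 6) y : Fin (n + 1) → ℤ)) else ∅

/-- their number -/
def LE87_cnt : ℕ → (ℕ → ℕ) → ℕ
  | 0, c => if ∀ v ∈ range 7, c v = 0 then 1 else 0
  | n + 1, c => (if 0 < c 0 then LE87_cnt n (LE87_dec c 0) else 0) +
      2 * ((if 0 < c 1 then LE87_cnt n (LE87_dec c 1) else 0) +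
        (if 0 < c 2 then LE87_cnt n (LE87_dec c 2) else 0) +
        (if 0 < c 3 then LE87_cnt n (LE87_dec c 3) else 0) +
        (if 0 < c 4 then LE87_cnt n (LE87_dec c 4) else 0) +
        (if 0 < c 5 then LE87_cnt n (LE87_dec c 5) else 0) +
        (if 0 < c 6 then LE87_cnt n (LE87_dec c 6) else 0))

lemma LE87_abs (t : ℕ) : |(t : ℤ) - 6| = (LE87_w t : ℤ) := by
  unfold LE87_w
  rcases le_total 0 ((t : ℤ) - 6) with h | h
  · rw [abs_of_nonneg h]
    omega
  · rw [abs_of_nonpos h]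
    omega

lemma LE87_card : ∀ (n : ℕ) (c : ℕ → ℕ), (LE87_fs n c).card = LE87_cnt n c := by
  intro n
  induction n with
  | zero =>
    intro c
    unfold LE87_fs LE87_cnt
    split_ifs <;> rfl
  | succ n ih =>
    intro c
    rw [LE87_fs, LE87_cnt, card_biUnion]
    · have h1 : ∀ t ∈ range 13, (if 0 < c (LE87_w t) then
          (LE87_fs n (LE87_dec c (LE87_w t))).image
            (fun y => (Fin.cons ((t : ℤ) - 6) y : Fin (n + 1) → ℤ)) else ∅).card =
          (fun v => if 0 < c v then LE87_cnt n (LE87_dec c v) else 0) (LE87_w t) := by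
        intro t _
        split_ifs with h2
        · rw [card_image_of_injective _ (Fin.cons_right_injective (α := fun _ => ℤ) _), ih]
          simp only [if_pos h2]
        · simp only [if_neg h2, card_empty]
      rw [sum_congr rfl h1]
      simp only [sum_range_succ, sum_range_zero, LE87_w]
      norm_num
      ring
    · intro t _ t' _ htt
      rw [Function.onFun, disjoint_left]
      intro y hy hy'
      split_ifs at hy with h1
      · split_ifs at hy' with h2
        · obtain ⟨z, -, rfl⟩ := mem_image.1 hy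
          obtain ⟨z', -, h3⟩ := mem_image.1 hy'
          have h4 := congrFun h3 0
          rw [Fin.cons_zero, Fin.cons_zero] at h4
          apply htt
          omega
        · exact absurd hy' (notMem_empty _)
      · exact absurd hy (notMem_empty _)

lemma LE87_mem : ∀ (n : ℕ) (c : ℕ → ℕ), (∀ v, 7 ≤ v → c v = 0) → ∀ y : Fin n → ℤ,
    y ∈ LE87_fs n c → (∀ i, |y i| ≤ 6) ∧
      ∀ v : ℕ, (univ.filter fun i : Fin n => |y i| = (v : ℤ)).card = c v := by
  intro n
  induction n with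
  | zero =>
    intro c hc y hy
    unfold LE87_fs at hy
    split_ifs at hy with h1
    · refine ⟨fun i => i.elim0, fun v => ?_⟩
      rw [univ_eq_empty, filter_empty, card_empty]
      rcases Nat.lt_or_ge v 7 with h2 | h2
      · exact (h1 v (mem_range.2 h2)).symm
      · exact (hc v h2).symm
    · exact absurd hy (notMem_empty _)
  | succ n ih =>
    intro c hc y hy
    rw [LE87_fs, mem_biUnion] at hy
    obtain ⟨t, ht, hy⟩ := hy
    split_ifs at hy with h1
    · obtain ⟨z, hz, rfl⟩ := mem_image.1 hy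
      have h2 := ih (LE87_dec c (LE87_w t)) (fun v hv => by
        rw [LE87_dec]
        split_ifs
        · rw [hc v hv]
        · exact hc v hv) z hz
      have h3 := mem_range.1 ht
      refine ⟨fun i => ?_, fun v => ?_⟩
      · refine Fin.cases ?_ (fun j => ?_) i
        · rw [Fin.cons_zero, LE87_abs]
          unfold LE87_w
          omega
        · rw [Fin.cons_succ]
          exact h2.1 j
      · rw [Fin.card_filter_univ_succ]
        have h4 := h2.2 v
        have h5 : (univ.filter fun i : Fin n =>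
            |(Fin.cons ((t : ℤ) - 6) z : Fin (n + 1) → ℤ) i.succ| = (v : ℤ)).card =
            LE87_dec c (LE87_w t) v := by
          rw [← h4]
          rfl
        have h6 : (|(Fin.cons ((t : ℤ) - 6) z : Fin (n + 1) → ℤ) 0| = (v : ℤ)) ↔ v = LE87_w t := by
          rw [Fin.cons_zero, LE87_abs]
          constructor
          · intro h; exact_mod_cast h.symm
          · intro h; rw [h]
        by_cases h7 : v = LE87_w t
        · rw [if_pos (h6.2 h7)]
          have h8 : LE87_dec c (LE87_w t) v = c v - 1 := by rw [LE87_dec, if_pos h7]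
          rw [h8] at h5
          rw [← h7] at h1
          rw [h5]
          omega
        · rw [if_neg fun h => h7 (h6.1 h)]
          have h8 : LE87_dec c (LE87_w t) v = c v := by rw [LE87_dec, if_neg h7]
          rw [h8] at h5
          rw [h5]
    · exact absurd hy (notMem_empty _)

/-- the converse of the membership -/
lemma LE87_conv : ∀ (n : ℕ) (c : ℕ → ℕ) (y : Fin n → ℤ), (∀ i, |y i| ≤ 6) →
      (∀ v : ℕ, (univ.filter fun i : Fin n => |y i| = (v : ℤ)).card = c v) → y ∈ LE87_fs n c := by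
  intro n
  induction n with
  | zero =>
    intro c y _ hyc
    rw [LE87_fs, if_pos fun v _ => by rw [← hyc v]; simp]
    rw [mem_singleton]
    funext i
    exact i.elim0
  | succ n ih =>
    intro c y hy hyc
    rw [LE87_fs, mem_biUnion]
    have h0 := abs_le.1 (hy 0)
    have h7 : (((y 0 + 6).toNat : ℕ) : ℤ) - 6 = y 0 := by omega
    have hw : |y 0| = (LE87_w (y 0 + 6).toNat : ℤ) := by
      rw [← LE87_abs, h7]
    refine ⟨(y 0 + 6).toNat, mem_range.2 (by omega), ?_⟩
    have h8 : 0 < c (LE87_w (y 0 + 6).toNat) := by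
      rw [← hyc]
      exact card_pos.2 ⟨0, mem_filter.2 ⟨mem_univ _, hw⟩⟩
    rw [if_pos h8]
    refine mem_image.2 ⟨fun i => y i.succ, ih _ _ (fun i => hy i.succ) fun v => ?_, ?_⟩
    · have h9 := hyc v
      rw [Fin.card_filter_univ_succ] at h9
      have h10 : (|y 0| = (v : ℤ)) ↔ v = LE87_w (y 0 + 6).toNat := by
        rw [hw]
        constructor
        · intro h; exact_mod_cast h.symm
        · intro h; rw [h]
      rw [LE87_dec]
      by_cases h11 : v = LE87_w (y 0 + 6).toNat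
      · rw [if_pos (h10.2 h11)] at h9
        rw [if_pos h11]
        omega
      · rw [if_neg fun h => h11 (h10.1 h)] at h9
        rw [if_neg h11]
        exact h9
    · rw [h7]
      exact Fin.cons_self_tail y

lemma LE87_cN (x : Vec 8) (v : ℤ) : cN 8 x v = (univ.filter fun i : Fin 8 => |x i| = v).card := by
  unfold cN
  refine congrArg card (filter_congr fun i _ => ?_)
  exact ⟨fun h => h.2, fun h => ⟨i.2, h⟩⟩

lemma LE87_same (hCTE : CTE_stmt) (c : ℕ → ℕ) (hc : ∀ v, 7 ≤ v → c v = 0) (y : Vec 8)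
    (hy : ∀ i, |y i| ≤ 8) (hyc : ∀ v ∈ range 9, cN 8 y (v : ℤ) = c v) (x : Vec 8)
    (hx : x ∈ LE87_fs 8 c) : ∀ v : ℤ, cN 8 x v = cN 8 y v := by
  intro v
  obtain ⟨h1, h2⟩ := LE87_mem 8 c hc x hx
  have hx8 : ∀ i, |x i| ≤ 8 := fun i => (h1 i).trans (by norm_num)
  by_cases h : v < 0 ∨ 8 < v
  · rw [(hCTE 8 x le_rfl hx8).2.2.1 v h, (hCTE 8 y le_rfl hy).2.2.1 v h]
  · push Not at h
    obtain ⟨k, rfl⟩ : ∃ k : ℕ, v = k := ⟨v.toNat, by omega⟩
    rw [LE87_cN, h2 k, hyc k (mem_range.2 (by omega))]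

lemma LE87_vtx (hCLQ : CLQ_stmt) (L : List (Vec 8))
    (hL : ∀ a ∈ L, (∀ i j, a i % 2 = a j % 2) ∧ (∑ i, a i) % 4 = 0 ∧ dp a a = 8)
    (hp : L.Pairwise (fun a b => dp a b = 0)) : L.sum ∈ VE R8 L.length := by
  refine hCLQ R8 L (fun a ha => ?_) hp
  obtain ⟨h1, h2, h3⟩ := hL a ha
  exact ⟨⟨⟨h1, h2⟩, by rw [h3]; norm_num⟩, h3⟩

/-- numbers of the three types -/
def LE87_c1 (v : ℕ) : ℕ := if v = 6 then 1 else if v = 2 then 5 else if v = 0 then 2 else 0
def LE87_c2 (v : ℕ) : ℕ := if v = 4 then 3 else if v = 2 then 2 else if v = 0 then 3 else 0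
def LE87_c3 (v : ℕ) : ℕ := if v = 5 then 1 else if v = 3 then 3 else if v = 1 then 4 else 0

lemma LE87_n1 : LE87_cnt 8 LE87_c1 = 10752 := by decide +kernel
lemma LE87_n2 : LE87_cnt 8 LE87_c2 = 17920 := by decide +kernel
lemma LE87_n3 : LE87_cnt 8 LE87_c3 = 71680 := by decide +kernel

def LE87_l1 : List (Vec 8) := [![2, -2, 0, 0, 0, 0, 0, 0], ![0, 0, 2, 2, 0, 0, 0, 0],
  ![0, 0, 0, 0, 2, 2, 0, 0], ![1, 1, 1, -1, 1, -1, 1, 1], ![1, 1, 1, -1, -1, 1, -1, -1],
  ![1, 1, -1, 1, 1, -1, -1, -1], ![1, 1, -1, 1, -1, 1, 1, 1]]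
def LE87_l2 : List (Vec 8) := [![2, 0, 0, 0, 0, 2, 0, 0], ![2, 0, 0, 0, 0, -2, 0, 0],
  ![0, 2, 0, 0, 0, 0, 2, 0], ![0, 2, 0, 0, 0, 0, -2, 0], ![0, 0, 2, 0, 0, 0, 0, 2],
  ![0, 0, 2, 0, 0, 0, 0, -2], ![0, 0, 0, 2, 2, 0, 0, 0]]
def LE87_l3 : List (Vec 8) := [![2, 0, 0, 0, -2, 0, 0, 0], ![0, 2, 0, 0, 0, 2, 0, 0],
  ![0, 0, 2, 0, 0, 0, 2, 0], ![0, 0, 0, 2, 0, 0, 0, -2], ![1, 1, 1, -1, 1, -1, -1, -1],
  ![1, 1, -1, 1, 1, -1, 1, 1], ![1, -1, 1, 1, 1, 1, -1, 1]]

def LE87_y1 : Vec 8 := ![6, 2, 2, 2, 2, 2, 0, 0]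
def LE87_y2 : Vec 8 := ![4, 4, 4, 2, 2, 0, 0, 0]
def LE87_y3 : Vec 8 := ![5, 3, 3, 3, 1, 1, 1, -1]

lemma LE87_s1 : LE87_l1.sum = LE87_y1 := by decide +kernel
lemma LE87_s2 : LE87_l2.sum = LE87_y2 := by decide +kernel
lemma LE87_s3 : LE87_l3.sum = LE87_y3 := by decide +kernel

lemma LE87_r1 (hCLQ : CLQ_stmt) : LE87_y1 ∈ VE R8 7 := by
  rw [← LE87_s1]
  exact LE87_vtx hCLQ LE87_l1 (by decide +kernel) (by decide +kernel)

lemma LE87_r2 (hCLQ : CLQ_stmt) : LE87_y2 ∈ VE R8 7 := by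
  rw [← LE87_s2]
  exact LE87_vtx hCLQ LE87_l2 (by decide +kernel) (by decide +kernel)

lemma LE87_r3 (hCLQ : CLQ_stmt) : LE87_y3 ∈ VE R8 7 := by
  rw [← LE87_s3]
  exact LE87_vtx hCLQ LE87_l3 (by decide +kernel) (by decide +kernel)

/-- flip the sign of the first coordinate -/
def LE87_flip (x : Vec 8) : Vec 8 := fun i => if i = 0 then -x i else x i

attribute [local irreducible] LE87_fs LE87_cnt

/-- Row LE87. -/
theorem LE87 (hREP : REP_stmt) (hCTE : CTE_stmt) (hPRD : PRD_stmt) (hCLQ : CLQ_stmt)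
    (hELB : ELB_stmt) : LE87_stmt := by
  classical
  have hc1 : ∀ v, 7 ≤ v → LE87_c1 v = 0 := fun v hv => by
    unfold LE87_c1
    rw [if_neg (by omega), if_neg (by omega), if_neg (by omega)]
  have hc2 : ∀ v, 7 ≤ v → LE87_c2 v = 0 := fun v hv => by
    unfold LE87_c2
    rw [if_neg (by omega), if_neg (by omega), if_neg (by omega)]
  have hc3 : ∀ v, 7 ≤ v → LE87_c3 v = 0 := fun v hv => by
    unfold LE87_c3
    rw [if_neg (by omega), if_neg (by omega), if_neg (by omega)]
  have hsame1 := LE87_same hCTE LE87_c1 hc1 LE87_y1 (by decide +kernel) (by decide +kernel)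
  have hsame2 := LE87_same hCTE LE87_c2 hc2 LE87_y2 (by decide +kernel) (by decide +kernel)
  have hsame3 := LE87_same hCTE LE87_c3 hc3 LE87_y3 (by decide +kernel) (by decide +kernel)
  -- membership
  have hm1 : ∀ x ∈ LE87_fs 8 LE87_c1, x ∈ VE R8 7 := by
    intro x hx
    have h1 := hsame1 x hx
    have h2 : 0 < cN 8 x 0 := by
      rw [h1]
      decide +kernel
    have h3 := hPRD.2.1 8 x LE87_y1 h1 h2
    exact (hREP 7 x LE87_y1).1 h1 (h3.1.trans h3.2.symm) (LE87_r1 hCLQ)
  have hm2 : ∀ x ∈ LE87_fs 8 LE87_c2, x ∈ VE R8 7 := by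
    intro x hx
    have h1 := hsame2 x hx
    have h2 : 0 < cN 8 x 0 := by
      rw [h1]
      decide +kernel
    have h3 := hPRD.2.1 8 x LE87_y2 h1 h2
    exact (hREP 7 x LE87_y2).1 h1 (h3.1.trans h3.2.symm) (LE87_r2 hCLQ)
  have hy3 : LE87_y3 ∈ EL := ⟨by decide +kernel, by decide +kernel⟩
  -- odd entries
  have hodd : ∀ x ∈ LE87_fs 8 LE87_c3, ∀ i, x i % 2 = 1 := by
    intro x hx i
    obtain ⟨h1, h2⟩ := LE87_mem 8 LE87_c3 hc3 x hx
    have h3 := h1 i
    obtain ⟨v, hv⟩ : ∃ v : ℕ, |x i| = (v : ℤ) := ⟨(|x i|).toNat, by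
      rw [Int.toNat_of_nonneg (abs_nonneg _)]⟩
    have h4 : 0 < LE87_c3 v := by
      rw [← h2 v]
      exact card_pos.2 ⟨i, mem_filter.2 ⟨mem_univ i, hv⟩⟩
    have h5 : v = 5 ∨ v = 3 ∨ v = 1 := by
      unfold LE87_c3 at h4
      split_ifs at h4 with a1 a2 a3
      · exact Or.inl a1
      · exact Or.inr (Or.inl a2)
      · exact Or.inr (Or.inr a3)
      · omega
    rcases abs_choice (x i) with h6 | h6 <;> omega
  have hm3 : ∀ x ∈ LE87_fs 8 LE87_c3, (∑ i, x i) % 4 = 0 → x ∈ VE R8 7 := by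
    intro x hx hs
    have h1 := hsame3 x hx
    have hxE : x ∈ EL := ⟨fun i j => (hodd x hx i).trans (hodd x hx j).symm, hs⟩
    have h3 := hPRD.1 8 x LE87_y3 (Or.inl rfl) hxE hy3 (hodd x hx 0)
      (fun i hi => absurd i.2 (by omega)) h1
    exact (hREP 7 x LE87_y3).1 h1 h3 (LE87_r3 hCLQ)
  -- the third set
  obtain ⟨G, hG⟩ : ∃ G : Finset (Vec 8), G = (LE87_fs 8 LE87_c3).filter
    (fun x => (∑ i, x i) % 4 = 0) := ⟨_, rfl⟩
  have hflipflip : ∀ x, LE87_flip (LE87_flip x) = x := by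
    intro x
    funext i
    unfold LE87_flip
    by_cases h : i = 0
    · simp [h]
    · simp [h]
  have hflipabs : ∀ x i, |LE87_flip x i| = |x i| := by
    intro x i
    unfold LE87_flip
    split_ifs
    · exact abs_neg _
    · rfl
  have hflipmem : ∀ x ∈ LE87_fs 8 LE87_c3, LE87_flip x ∈ LE87_fs 8 LE87_c3 := by
    intro x hx
    obtain ⟨h1, h2⟩ := LE87_mem 8 LE87_c3 hc3 x hx
    refine LE87_conv 8 _ _ (fun i => by rw [hflipabs]; exact h1 i) fun v => ?_
    simp only [hflipabs]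
    exact h2 v
  have hsum : ∀ x : Vec 8, ∑ i, LE87_flip x i = ∑ i, x i - 2 * x 0 := by
    intro x
    rw [Fin.sum_univ_succ, Fin.sum_univ_succ (f := x)]
    have h1 : ∀ i : Fin 7, LE87_flip x i.succ = x i.succ := by
      intro i
      unfold LE87_flip
      rw [if_neg (Fin.succ_ne_zero i)]
    rw [sum_congr rfl fun i _ => h1 i]
    unfold LE87_flip
    rw [if_pos rfl]
    ring
  have hcov : LE87_fs 8 LE87_c3 ⊆ G ∪ G.image LE87_flip := by
    intro x hx
    have h1 := hodd x hx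
    have h2 : (∑ i, x i) % 2 = 0 := by
      simp only [Fin.sum_univ_eight]
      have a0 := h1 0
      have a1 := h1 1
      have a2 := h1 2
      have a3 := h1 3
      have a4 := h1 4
      have a5 := h1 5
      have a6 := h1 6
      have a7 := h1 7
      omega
    by_cases h3 : (∑ i, x i) % 4 = 0
    · refine mem_union_left _ ?_
      rw [hG]
      exact mem_filter.2 ⟨hx, h3⟩
    · refine mem_union_right _ (mem_image.2 ⟨LE87_flip x, ?_, hflipflip x⟩)
      rw [hG]
      refine mem_filter.2 ⟨hflipmem x hx, ?_⟩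
      rw [hsum]
      have a0 := h1 0
      omega
  have hGcard : 35840 ≤ G.card := by
    have h1 := card_le_card hcov
    rw [LE87_card, LE87_n3] at h1
    have h2 := card_union_le G (G.image LE87_flip)
    have h3 : (G.image LE87_flip).card ≤ G.card := card_image_le
    omega
  -- the union
  have hd12 : Disjoint (LE87_fs 8 LE87_c1) (LE87_fs 8 LE87_c2) := by
    rw [disjoint_left]
    intro x hx hx'
    have h1 := (LE87_mem 8 LE87_c1 hc1 x hx).2 6
    have h2 := (LE87_mem 8 LE87_c2 hc2 x hx').2 6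
    rw [h1] at h2
    exact absurd h2 (by decide)
  have hd3 : Disjoint (LE87_fs 8 LE87_c1 ∪ LE87_fs 8 LE87_c2) G := by
    rw [disjoint_left]
    intro x hx hx'
    rw [hG] at hx'
    have h2 := (LE87_mem 8 LE87_c3 hc3 x (mem_filter.1 hx').1).2 5
    rcases mem_union.1 hx with h | h
    · have h1 := (LE87_mem 8 LE87_c1 hc1 x h).2 5
      rw [h1] at h2
      exact absurd h2 (by decide)
    · have h1 := (LE87_mem 8 LE87_c2 hc2 x h).2 5
      rw [h1] at h2
      exact absurd h2 (by decide)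
  have hcardU : 64512 ≤ ((LE87_fs 8 LE87_c1 ∪ LE87_fs 8 LE87_c2) ∪ G).card := by
    rw [card_union_of_disjoint hd3, card_union_of_disjoint hd12, LE87_card, LE87_card, LE87_n1,
      LE87_n2]
    omega
  have hsubU : ((((LE87_fs 8 LE87_c1 ∪ LE87_fs 8 LE87_c2) ∪ G : Finset (Vec 8))) : Set (Vec 8)) ⊆
      VE R8 7 := by
    intro x hx
    rcases mem_union.1 (mem_coe.1 hx) with h | h
    · rcases mem_union.1 h with h | h
      · exact hm1 x h
      · exact hm2 x h
    · rw [hG] at h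
      exact hm3 x (mem_filter.1 h).1 (mem_filter.1 h).2
  have hfin : (VE R8 7).Finite := by
    have h1 : {f : Fin 8 → ℤ | ∀ i, f i ∈ Set.Icc (-8 : ℤ) 8}.Finite :=
      Set.Finite.pi' fun _ => Set.finite_Icc _ _
    refine h1.subset ?_
    intro x hx i
    have h2 := (hELB.2.2.1 7 x).1 hx
    have h3 : dp x x = 8 * (7 : ℕ) := h2.2
    have h4 : x i * x i ≤ dp x x :=
      single_le_sum (f := fun i => x i * x i) (fun j _ => mul_self_nonneg _) (mem_univ i)
    rw [h3] at h4
    push_cast at h4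
    constructor
    · by_contra hh
      push Not at hh
      nlinarith
    · by_contra hh
      push Not at hh
      nlinarith
  have hfinal := Set.ncard_le_ncard hsubU hfin
  rw [Set.ncard_coe_finset] at hfinal
  exact lt_of_lt_of_le (by omega) hfinal

end Pool.Agent.SOL
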