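import Pool.Agent.helper1.SOL.SpecN

/-!
# Row BDG: even and odd vertices of the special graphs of type B have different degrees
-/

set_option autoImplicit false

namespace Pool.Agent.SOL

open Pool.Agent.helper54.SOG Finset

open scoped BigOperators

theorem BDG_type (hBTY : BTY_stmt) (κ : ℕ) (hκ : 1 ≤ κ) (x : Vec (2 * κ + 1)) :
    x ∈ VB (2 * κ + 1) (2 * κ) ↔
      x ∈ TD (2 * κ + 1) κ 0 ∨ x ∈ TD (2 * κ + 1) (κ - 1) 3 := by
  rw [hBTY.1]
  constructor
  · rintro ⟨h1, h2, h3⟩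
    rcases h2 with h2 | h2
    · exact Or.inl ⟨h1, by omega, by omega⟩
    · exact Or.inr ⟨h1, by omega, by omega⟩
  · rintro (⟨h1, h2, h3⟩ | ⟨h1, h2, h3⟩)
    · exact ⟨h1, by omega, by omega⟩
    · exact ⟨h1, by omega, by omega⟩

theorem BDG_even (hBTY : BTY_stmt) (κ : ℕ) (x : Vec (2 * κ + 1)) (hx : x ∈ TD (2 * κ + 1) κ 0) :
    dp x x = 2 * ((2 * κ : ℕ) : ℤ) := by
  rw [hBTY.2.2.1 _ x hx.1, hx.2.1, hx.2.2]
  push_cast
  ring

theorem BDG_odd (hBTY : BTY_stmt) (κ : ℕ) (hκ : 1 ≤ κ) (x : Vec (2 * κ + 1))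
    (hx : x ∈ TD (2 * κ + 1) (κ - 1) 3) : dp x x ≠ 2 * ((2 * κ : ℕ) : ℤ) := by
  rw [hBTY.2.2.1 _ x hx.1, hx.2.1, hx.2.2]
  omega

/-- invariance of numbers of neighbours -/
theorem BDG_inv {n : ℕ} (V O : Set (Vec n)) (g : Vec n → Vec n) (hg : ∀ x, g (g x) = x)
    (hsub : ∀ x y, g (x - y) = g x - g y) (hV : ∀ x ∈ V, g x ∈ V) (hO : ∀ x ∈ O, g x ∈ O)
    (v : Vec n) : ({y | y ∈ O ∧ g v - y ∈ V} : Set (Vec n)).ncard =
      ({y | y ∈ O ∧ v - y ∈ V} : Set (Vec n)).ncard := by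
  have hinj : Function.Injective g := fun x y h => by rw [← hg x, h, hg]
  have h1 : ({y | y ∈ O ∧ g v - y ∈ V} : Set (Vec n)) = g '' {y | y ∈ O ∧ v - y ∈ V} := by
    ext y
    constructor
    · rintro ⟨h1, h2⟩
      refine ⟨g y, ⟨hO y h1, ?_⟩, hg y⟩
      have h3 := hV _ h2
      rwa [hsub, hg] at h3
    · rintro ⟨z, ⟨h1, h2⟩, rfl⟩
      refine ⟨hO z h1, ?_⟩
      rw [← hsub]
      exact hV _ h2
  rw [h1, Set.ncard_image_of_injective _ hinj]

theorem BDG_flp_flp {n : ℕ} (i : Fin n) (x : Vec n) : flp i (flp i x) = x := by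
  funext j
  unfold flp
  by_cases h : j = i
  · rw [if_pos h, if_pos h, neg_neg]
  · rw [if_neg h, if_neg h]

theorem BDG_flp_sub {n : ℕ} (i : Fin n) (x y : Vec n) : flp i (x - y) = flp i x - flp i y := by
  funext j
  show (if j = i then -((x - y) j) else (x - y) j) =
    (if j = i then -x j else x j) - (if j = i then -y j else y j)
  by_cases h : j = i
  · rw [if_pos h, if_pos h, if_pos h, Pi.sub_apply]
    ring
  · rw [if_neg h, if_neg h, if_neg h, Pi.sub_apply]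

theorem BDG_swp_swp {n : ℕ} (a b : Fin n) (x : Vec n) : swp a b (swp a b x) = x := by
  funext j
  show x (Equiv.swap a b (Equiv.swap a b j)) = x j
  rw [Equiv.swap_apply_self]

theorem BDG_swp_sub {n : ℕ} (a b : Fin n) (x y : Vec n) : swp a b (x - y) = swp a b x - swp a b y :=
  rfl

/-- the numbers -/
theorem BDG_num (j : ℕ) (hj : 1 ≤ j)
    (h : (2 * (j + 1) + 1).choose j * (2 * (j + 1) + 1 - j).choose 3 * 2 ^ (j + 3) ≤
      2 * ((2 * (j + 1) + 1).choose (j + 1) * (2 * (j + 1) + 1 - (j + 1)).choose 0 *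
        2 ^ (j + 1 + 0))) : False := by
  have h1 := Nat.choose_succ_right_eq (2 * (j + 1) + 1) j
  have h2 : 2 * (j + 1) + 1 - j = j + 3 := by omega
  rw [h2] at h h1
  rw [Nat.choose_zero_right, mul_one, add_zero] at h
  obtain ⟨A, hA⟩ : ∃ A, A = (2 * (j + 1) + 1).choose j := ⟨_, rfl⟩
  obtain ⟨B, hB⟩ : ∃ B, B = (2 * (j + 1) + 1).choose (j + 1) := ⟨_, rfl⟩
  obtain ⟨T, hT⟩ : ∃ T, T = (j + 3).choose 3 := ⟨_, rfl⟩
  rw [← hA, ← hB] at h1
  rw [← hA, ← hB, ← hT] at h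
  have hApos : 0 < A := by
    rw [hA]
    exact Nat.choose_pos (by omega)
  have hT4 : 4 ≤ T := by
    rw [hT]
    have h3 : (4 : ℕ).choose 3 ≤ (j + 3).choose 3 := Nat.choose_le_choose 3 (by omega)
    have h4 : (4 : ℕ).choose 3 = 4 := by decide
    omega
  have hp : 0 < 2 ^ j := by positivity
  have h5 : A * T * 4 ≤ 2 * B := by
    have h6 : (A * T * 4) * (2 ^ j * 2) ≤ (2 * B) * (2 ^ j * 2) := by
      calc (A * T * 4) * (2 ^ j * 2) = A * T * 2 ^ (j + 3) := by ring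
        _ ≤ 2 * (B * 2 ^ (j + 1)) := h
        _ = (2 * B) * (2 ^ j * 2) := by ring
    exact Nat.le_of_mul_le_mul_right h6 (by positivity)
  have h7 : A * T * 4 * (j + 1) ≤ 2 * (A * (j + 3)) := by
    calc A * T * 4 * (j + 1) ≤ 2 * B * (j + 1) := Nat.mul_le_mul_right _ h5
      _ = 2 * (B * (j + 1)) := by ring
      _ = 2 * (A * (j + 3)) := by rw [h1]
  have h8 : A * 4 * 4 * (j + 1) ≤ A * T * 4 * (j + 1) := by
    have : A * 4 ≤ A * T := Nat.mul_le_mul_left _ hT4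
    exact Nat.mul_le_mul_right _ (Nat.mul_le_mul_right _ this)
  have h9 : A * (16 * (j + 1)) ≤ A * (2 * (j + 3)) := by
    calc A * (16 * (j + 1)) = A * 4 * 4 * (j + 1) := by ring
      _ ≤ 2 * (A * (j + 3)) := h8.trans h7
      _ = A * (2 * (j + 3)) := by ring
  have h10 := Nat.le_of_mul_le_mul_left h9 hApos
  omega

/-- Row BDG. -/
theorem BDG (hCNT : CNT_stmt) (hPAT : PAT_stmt) (hBTY : BTY_stmt) (hSHB : SHB_stmt)
    (hTRS : TRS_stmt) (hCRD : CRD_stmt) : BDG_stmt := by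
  classical
  intro κ hκ v hv x hx hdeg
  obtain ⟨V, hV⟩ : ∃ V, V = VB (2 * κ + 1) (2 * κ) := ⟨_, rfl⟩
  obtain ⟨E, hE⟩ : ∃ E, E = TD (2 * κ + 1) κ 0 := ⟨_, rfl⟩
  obtain ⟨O, hO⟩ : ∃ O, O = TD (2 * κ + 1) (κ - 1) 3 := ⟨_, rfl⟩
  have hVEO : ∀ y, y ∈ V ↔ y ∈ E ∨ y ∈ O := by
    intro y
    rw [hV, hE, hO]
    exact BDG_type hBTY κ (by omega) y
  have hsy : Sy V := by
    rw [hV]
    exact (hBTY.2.2.2.2.2.2.1 (2 * κ + 1) (2 * κ) (by omega)).1
  have hVflp : ∀ i, ∀ y ∈ V, flp i y ∈ V := by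
    intro i y hy
    rw [hV] at hy ⊢
    exact (hBTY.2.2.2.2.1 _ _ y hy).1 i
  have hVswp : ∀ a b, ∀ y ∈ V, swp a b y ∈ V := by
    intro a b y hy
    rw [hV] at hy ⊢
    exact (hBTY.2.2.2.2.1 _ _ y hy).2 a b
  have hflp : ∀ t s i, ∀ y ∈ TD (2 * κ + 1) t s, flp i y ∈ TD (2 * κ + 1) t s :=
    fun t s i y hy => hCNT.2.2.2.1 _ t s y i hy
  have hswp : ∀ t s a b, ∀ y ∈ TD (2 * κ + 1) t s, swp a b y ∈ TD (2 * κ + 1) t s :=
    fun t s a b y hy => hCNT.2.2.2.2.1 _ t s y a b hy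
  have hEfin : E.Finite := by rw [hE]; exact hCRD.1 _ _ _
  have hOfin : O.Finite := by rw [hO]; exact hCRD.1 _ _ _
  -- constant numbers
  have hm : ∀ v' ∈ E, ({y | y ∈ O ∧ v' - y ∈ V} : Set (Vec (2 * κ + 1))).ncard =
      ({y | y ∈ O ∧ v - y ∈ V} : Set (Vec (2 * κ + 1))).ncard := by
    intro v' hv'
    refine hTRS.1 (2 * κ + 1) κ 0 ℕ
      (fun v' => ({y | y ∈ O ∧ v' - y ∈ V} : Set (Vec (2 * κ + 1))).ncard) (fun w _ i => ?_)
      (fun w _ a b => ?_) v' (by rw [← hE]; exact hv') v hv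
    · exact BDG_inv V O (flp i) (BDG_flp_flp i) (BDG_flp_sub i) (hVflp i)
        (by rw [hO]; exact hflp _ _ i) w
    · exact BDG_inv V O (swp a b) (BDG_swp_swp a b) (BDG_swp_sub a b) (hVswp a b)
        (by rw [hO]; exact hswp _ _ a b) w
  have hm' : ∀ x' ∈ O, ({y | y ∈ E ∧ x' - y ∈ V} : Set (Vec (2 * κ + 1))).ncard =
      ({y | y ∈ E ∧ x - y ∈ V} : Set (Vec (2 * κ + 1))).ncard := by
    intro v' hv'
    refine hTRS.1 (2 * κ + 1) (κ - 1) 3 ℕ
      (fun v' => ({y | y ∈ E ∧ v' - y ∈ V} : Set (Vec (2 * κ + 1))).ncard) (fun w _ i => ?_)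
      (fun w _ a b => ?_) v' (by rw [← hO]; exact hv') x hx
    · exact BDG_inv V E (flp i) (BDG_flp_flp i) (BDG_flp_sub i) (hVflp i)
        (by rw [hE]; exact hflp _ _ i) w
    · exact BDG_inv V E (swp a b) (BDG_swp_swp a b) (BDG_swp_sub a b) (hVswp a b)
        (by rw [hE]; exact hswp _ _ a b) w
  obtain ⟨m, hmd⟩ : ∃ m, m = ({y | y ∈ O ∧ v - y ∈ V} : Set (Vec (2 * κ + 1))).ncard := ⟨_, rfl⟩
  obtain ⟨m', hmd'⟩ : ∃ m', m' = ({y | y ∈ E ∧ x - y ∈ V} : Set (Vec (2 * κ + 1))).ncard :=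
    ⟨_, rfl⟩
  rw [← hmd] at hm
  rw [← hmd'] at hm'
  -- double counting
  have hdc : E.ncard * m = O.ncard * m' := by
    have h1 := Finset.sum_card_bipartiteAbove_eq_sum_card_bipartiteBelow
      (s := hEfin.toFinset) (t := hOfin.toFinset) (fun a b => a - b ∈ V)
    have h2 : ∀ a ∈ hEfin.toFinset,
        (hOfin.toFinset.bipartiteAbove (fun a b => a - b ∈ V) a).card = m := by
      intro a ha
      rw [← hm a (hEfin.mem_toFinset.1 ha), ← Set.ncard_coe_finset]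
      refine congrArg Set.ncard ?_
      ext y
      rw [Finset.mem_coe, Finset.mem_bipartiteAbove, hOfin.mem_toFinset]
      exact Iff.rfl
    have h3 : ∀ b ∈ hOfin.toFinset,
        (hEfin.toFinset.bipartiteBelow (fun a b => a - b ∈ V) b).card = m' := by
      intro b hb
      rw [← hm' b (hOfin.mem_toFinset.1 hb), ← Set.ncard_coe_finset]
      refine congrArg Set.ncard ?_
      ext y
      rw [Finset.mem_coe, Finset.mem_bipartiteBelow, hEfin.mem_toFinset]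
      constructor
      · rintro ⟨h4, h5⟩
        refine ⟨h4, ?_⟩
        have := hsy.neg _ h5
        rwa [neg_sub] at this
      · rintro ⟨h4, h5⟩
        refine ⟨h4, ?_⟩
        have := hsy.neg _ h5
        rwa [neg_sub] at this
    rw [Finset.sum_congr rfl h2, Finset.sum_congr rfl h3, Finset.sum_const, Finset.sum_const,
      smul_eq_mul, smul_eq_mul] at h1
    rw [Set.ncard_eq_toFinset_card E hEfin, Set.ncard_eq_toFinset_card O hOfin]
    exact h1
  -- degrees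
  have hVfin : V.Finite := by
    rw [hV]
    exact (hBTY.2.2.2.2.2.2.2 (2 * κ + 1) (2 * κ)).1
  have hdv : m ≤ (NB V v).ncard := by
    rw [hmd]
    refine Set.ncard_le_ncard ?_ (hVfin.subset fun y hy => hy.1)
    rintro y ⟨h1, h2⟩
    exact ⟨(hVEO y).2 (Or.inr h1), h2⟩
  have hEfin' : ({y | y ∈ E ∧ x - y ∈ V} : Set (Vec (2 * κ + 1))).Finite :=
    hEfin.subset fun y hy => hy.1
  have hdx : (NB V x).ncard ≤ 2 * m' := by
    have h1 : NB V x ⊆ {y | y ∈ E ∧ x - y ∈ V} ∪ (fun y => x - y) '' {y | y ∈ E ∧ x - y ∈ V} := by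
      rintro y ⟨h2, h3⟩
      rcases (hVEO y).1 h2 with h4 | h4
      · exact Or.inl ⟨h4, h3⟩
      · right
        refine ⟨x - y, ⟨?_, ?_⟩, sub_sub_cancel x y⟩
        · have hxV : x ∈ V := (hVEO x).2 (Or.inr (by rw [hO]; exact hx))
          have h5 := (hSHB (2 * κ + 1) (2 * κ) x y (by omega) (by rw [← hV]; exact hxV)
            (by rw [← hV]; exact h2) (by rw [← hV]; exact h3)).1
          have h6 : dp x x ≠ 2 * ((2 * κ : ℕ) : ℤ) := BDG_odd hBTY κ (by omega) x hx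
          have h7 : dp y y ≠ 2 * ((2 * κ : ℕ) : ℤ) :=
            BDG_odd hBTY κ (by omega) y (by rw [← hO]; exact h4)
          have h8 := h5.2 ⟨fun h => absurd h h6, fun h => absurd h h7⟩
          rcases (hVEO (x - y)).1 h3 with h9 | h9
          · exact h9
          · exact absurd h8 (BDG_odd hBTY κ (by omega) _ (by rw [← hO]; exact h9))
        · show x - (x - y) ∈ V
          rw [sub_sub_cancel]
          exact h2
    calc (NB V x).ncard ≤ ({y | y ∈ E ∧ x - y ∈ V} ∪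
          (fun y => x - y) '' {y | y ∈ E ∧ x - y ∈ V} : Set (Vec (2 * κ + 1))).ncard :=
          Set.ncard_le_ncard h1 (hEfin'.union (hEfin'.image _))
      _ ≤ _ := Set.ncard_union_le _ _
      _ ≤ m' + m' := by
          rw [← hmd']
          exact Nat.add_le_add_left ((Set.ncard_image_le hEfin').trans (le_of_eq hmd'.symm)) _
      _ = 2 * m' := by ring
  have hmm : m ≤ 2 * m' := by
    refine hdv.trans (le_trans (le_of_eq ?_) hdx)
    rw [hV]
    exact hdeg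
  -- an even neighbour
  have hm'pos : 0 < m' := by
    rw [hmd']
    have hx0 := hCNT.1 _ x hx.1
    have hx1 := hx.2.1
    have hx2 := hx.2.2
    obtain ⟨i, hi⟩ : ∃ i, |x i| = 1 := by
      have h1 : (univ.filter fun i => |x i| = 1).card = 3 := hx2
      have h2 : (univ.filter fun i => |x i| = 1).Nonempty := Finset.card_pos.1 (by omega)
      obtain ⟨i, hi⟩ := h2
      exact ⟨i, (Finset.mem_filter.1 hi).2⟩
    obtain ⟨y, hy1, hy2, -⟩ := hPAT.2.2 (2 * κ + 1) x (κ / 2) (κ - 1 - κ / 2) 0 0 (3 - κ % 2)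
      (κ % 2) 0 (κ / 2) 0 (κ - 1 - κ / 2) hx.1 (by omega) (by omega) (by omega) i 0 (by
        intro p q
        split_ifs with h
        · obtain ⟨h1, h2⟩ := h
          rw [hi] at h1
          subst h1
          subst h2
          unfold pat
          simp
          omega
        · exact Nat.zero_le _)
    refine (Set.ncard_pos hEfin').2 ⟨y, ?_, ?_⟩
    · rw [hE]
      have h1 : κ / 2 + κ % 2 + κ / 2 = κ := by omega
      rw [h1] at hy1
      exact hy1
    · refine (hVEO _).2 (Or.inr ?_)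
      rw [hO]
      have h1 : κ - 1 - κ / 2 + 0 + κ / 2 = κ - 1 := by omega
      have h2 : 0 + κ % 2 + (3 - κ % 2) + 0 = 3 := by omega
      rw [h1, h2] at hy2
      exact hy2
  have hfin : O.ncard ≤ 2 * E.ncard := by
    have h1 : O.ncard * m' ≤ (2 * E.ncard) * m' := by
      calc O.ncard * m' = E.ncard * m := hdc.symm
        _ ≤ E.ncard * (2 * m') := Nat.mul_le_mul_left _ hmm
        _ = (2 * E.ncard) * m' := by ring
    exact Nat.le_of_mul_le_mul_right h1 hm'pos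
  obtain ⟨j, rfl⟩ : ∃ j, κ = j + 1 := ⟨κ - 1, by omega⟩
  rw [hE, hO, hCRD.2.1 _ _ _ (by omega), hCRD.2.1 _ _ _ (by omega)] at hfin
  exact BDG_num j (by omega) hfin

end Pool.Agent.SOL
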