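import Pool.Agent.helper20.SOL.SpecP

/-!
# Row NSI: isomorphisms restrict to the sets NS
-/

set_option autoImplicit false

namespace Pool.Agent.SOL

open Pool.Agent.helper54.SOG Finset

open scoped BigOperators

theorem NSI_SS {n : ℕ} (S : Set (Vec n)) (hS : Sy S) (x y z : Vec n) (h : z ∈ SS S x y) :
    -z ∈ SS S (-x) (-y) := by
  obtain ⟨h1, h2, h3, h4, h5⟩ := h
  refine ⟨hS.neg z h1, ?_, fun h => h3 (neg_injective h), ?_, ?_⟩
  · have h6 := hS.neg _ h2
    have h7 : -y - -z = -(y - z) := by abel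
    rw [h7]
    exact h6
  · intro h6
    apply h4
    have h7 := hS.neg _ h6
    have h8 : -(-x - -z) = x - z := by abel
    rwa [h8] at h7
  · intro v hv h6 h7
    have h8 := h5 (-v) (hS.neg v hv) (by
      have h9 := hS.neg _ h6
      have h10 : -(-x - v) = x - -v := by abel
      rwa [h10] at h9) (by
      have h9 := hS.neg _ h7
      have h10 : -(-z - v) = z - -v := by abel
      rwa [h10] at h9)
    rw [← h8, neg_neg]

theorem NSI_neg {n : ℕ} (S : Set (Vec n)) (hS : Sy S) (x : Vec n) (hx : x ∈ NS S) : -x ∈ NS S := by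
  obtain ⟨⟨h1, y, hy, hxy⟩, h2⟩ := hx
  refine ⟨⟨hS.neg x h1, -y, hS.neg y hy, ?_⟩, ?_⟩
  · have h3 := hS.neg _ hxy
    have h4 : -x - -y = -(x - y) := by abel
    rw [h4]
    exact h3
  · intro y' h3
    obtain ⟨-, h5, h6, h7⟩ := h3
    refine h2 (-y') ⟨h1, hS.neg y' h5, ?_, ?_⟩
    · have h8 := hS.neg _ h6
      have h9 : -(-x - y') = x - -y' := by abel
      rwa [h9] at h8
    · by_contra h8
      obtain ⟨z, hz⟩ := Set.nonempty_iff_ne_empty.2 h8
      have h9 := NSI_SS S hS x (-y') z hz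
      rw [neg_neg, h7] at h9
      exact h9

/-- Row NSI. -/
theorem NSI (hSYA : SYA_stmt) (hRST : RST_stmt) : NSI_stmt := by
  intro n m S S' hS hS' h1 h2 hiso
  obtain ⟨ψ⟩ := hiso
  obtain ⟨ψ', -⟩ := hRST n m S (NS S) S' (NS S') ψ hS hS' (fun x hx => hx.1.1) (fun x hx => hx.1.1)
    (NSI_neg S hS) (NSI_neg S' hS') (hSYA n m S S' ψ hS hS').2.2.2.1 h1 h2
  exact ⟨ψ'⟩

end Pool.Agent.SOL
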